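import Pool.Agent.N936.TC.Stm

/-! TC/TRANS: no nontrivial invariant clopen set -/

set_option autoImplicit false

namespace Pool.Agent.N1.TC

open Set Topology
open Pool.Agent.N936.TC

/-- `d` depends on the first `n` digits only -/
def Dep (n : ℕ) (d : Q → Bool) : Prop := ∀ x y : Q, (∀ k < n, x k = y k) → d x = d y

theorem clopen_dep (D : Set Q) (hD : IsClopen D) :
    ∃ n, ∀ x y : Q, (∀ k < n, x k = y k) → (x ∈ D ↔ y ∈ D) := by
  classical
  have h1 : ∀ x : Q, ∃ n, PiNat.cylinder x n ⊆ D ∨ PiNat.cylinder x n ⊆ Dᶜ := by
    have key : ∀ (U : Set Q), IsOpen U → ∀ x ∈ U, ∃ n, PiNat.cylinder x n ⊆ U := by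
      intro U hU x hx
      obtain ⟨v, ⟨y, n, rfl⟩, hxv, hvU⟩ :=
        (PiNat.isTopologicalBasis_cylinders (E := fun _ : ℕ => Bool)).exists_subset_of_mem_open
          hx hU
      refine ⟨n, ?_⟩
      rw [PiNat.mem_cylinder_iff_eq.1 hxv]
      exact hvU
    intro x
    by_cases hx : x ∈ D
    · obtain ⟨n, hn⟩ := key D hD.isOpen x hx
      exact ⟨n, Or.inl hn⟩
    · obtain ⟨n, hn⟩ := key Dᶜ hD.compl.isOpen x hx
      exact ⟨n, Or.inr hn⟩
  choose n hn using h1
  obtain ⟨t, -, ht⟩ := (isCompact_univ (X := Q)).elim_nhds_subcover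
    (fun x => PiNat.cylinder x (n x))
    (fun x _ => (PiNat.isOpen_cylinder (E := fun _ : ℕ => Bool) x (n x)).mem_nhds
      (PiNat.self_mem_cylinder x (n x)))
  refine ⟨t.sup n, fun x y hxy => ?_⟩
  have hx := ht (mem_univ x)
  simp only [mem_iUnion] at hx
  obtain ⟨z, hz, hxz⟩ := hx
  have hyz : y ∈ PiNat.cylinder z (n z) := by
    intro k hk
    have h2 := hxz k hk
    rw [← h2]
    exact (hxy k (lt_of_lt_of_le hk (Finset.le_sup (f := n) hz))).symm
  rcases hn z with h | h
  · exact ⟨fun _ => h hyz, fun _ => h hxz⟩
  · exact ⟨fun h3 => absurd h3 (h hxz), fun h3 => absurd h3 (h hyz)⟩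

/-- the condition for the flip -/
def cnd (typ : ℕ → Bool) (wd : ℕ → ℕ → Bool) (i : Bool) (x : Q) (n : ℕ) : Prop :=
  typ n = i ∧ ∀ k < n, x k = wd n k

theorem sgf_eq (typ : ℕ → Bool) (wd : ℕ → ℕ → Bool) (i : Bool) (x y : Q) (n : ℕ)
    (h : ∀ k < n, x k = y k) :
    xor (sgf typ wd i x n) (x n) = xor (sgf typ wd i y n) (y n) := by
  have h1 : (typ n = i ∧ ∀ k < n, x k = wd n k) ↔ (typ n = i ∧ ∀ k < n, y k = wd n k) := by
    refine and_congr_right fun _ => forall₂_congr fun k hk => ?_
    rw [h k hk]
  unfold sgf
  by_cases h2 : typ n = i ∧ ∀ k < n, x k = wd n k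
  · rw [if_pos h2, if_pos (h1.1 h2)]
    cases x n <;> cases y n <;> rfl
  · rw [if_neg h2, if_neg fun h3 => h2 (h1.2 h3)]
    cases x n <;> cases y n <;> rfl

theorem sgf_same (typ : ℕ → Bool) (wd : ℕ → ℕ → Bool) (i : Bool) (x y : Q) (n : ℕ)
    (h : ∀ k < n, x k = y k) (h2 : x n = y n) :
    sgf typ wd i x n = sgf typ wd i y n := by
  have h1 := sgf_eq typ wd i x y n h
  rw [h2] at h1
  revert h1
  cases sgf typ wd i x n <;> cases sgf typ wd i y n <;> cases y n <;> simp

theorem sgf_diff (typ : ℕ → Bool) (wd : ℕ → ℕ → Bool) (i : Bool) (x y : Q) (n : ℕ)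
    (h : ∀ k < n, x k = y k) (h2 : y n = !(x n)) :
    sgf typ wd i y n = !(sgf typ wd i x n) := by
  have h1 := sgf_eq typ wd i x y n h
  rw [h2] at h1
  revert h1
  cases sgf typ wd i x n <;> cases sgf typ wd i y n <;> cases x n <;> simp

/-- flip the digit `n` -/
def fl (n : ℕ) (x : Q) : Q := Function.update x n (!(x n))

theorem fl_lt (n : ℕ) (x : Q) (k : ℕ) (hk : k < n) : fl n x k = x k :=
  Function.update_of_ne hk.ne _ _

theorem fl_self (n : ℕ) (x : Q) : fl n x n = !(x n) := Function.update_self _ _ _

/-- the values in `ZMod 2` -/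
def b2 (b : Bool) : ZMod 2 := if b then 1 else 0

theorem b2_xor (a b : Bool) : b2 (xor a b) = b2 a + b2 b := by
  cases a <;> cases b <;> decide

theorem const (typ : ℕ → Bool) (wd : ℕ → ℕ → Bool) : ∀ (n : ℕ) (d : Q → Bool), Dep n d →
    (∀ i x, d (sgf typ wd i x) = d x) → ∀ x y, d x = d y := by
  classical
  intro n
  induction n with
  | zero =>
    intro d hd _ x y
    exact hd x y fun k hk => absurd hk (Nat.not_lt_zero k)
  | succ n ih =>
    intro d hd hinv
    -- agreement on the digits up to `n`
    have hag : ∀ x y : Q, (∀ k < n, x k = y k) → x n = y n → d x = d y := by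
      intro x y h h2
      refine hd x y fun k hk => ?_
      rcases Nat.lt_succ_iff_lt_or_eq.1 hk with h3 | h3
      · exact h k h3
      · rw [h3]
        exact h2
    have hag2 : ∀ x y : Q, (∀ k < n, x k = y k) → x n ≠ y n → d y = d (fl n x) := by
      intro x y h h2
      refine hag y (fl n x) (fun k hk => ?_) ?_
      · rw [fl_lt n x k hk]
        exact (h k hk).symm
      · rw [fl_self]
        revert h2
        cases x n <;> cases y n <;> simp
    have hdep : Dep n fun x => xor (d x) (d (fl n x)) := by
      intro x y h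
      show xor (d x) (d (fl n x)) = xor (d y) (d (fl n y))
      by_cases h2 : x n = y n
      · rw [hag x y h h2, hag (fl n x) (fl n y) (fun k hk => by
          rw [fl_lt n x k hk, fl_lt n y k hk, h k hk]) (by rw [fl_self, fl_self, h2])]
      · rw [hag2 x y h h2, ← hag2 y x (fun k hk => (h k hk).symm) (Ne.symm h2), Bool.xor_comm]
    have hinv2 : ∀ i x, (fun x => xor (d x) (d (fl n x))) (sgf typ wd i x) =
        (fun x => xor (d x) (d (fl n x))) x := by
      intro i x
      show xor (d (sgf typ wd i x)) (d (fl n (sgf typ wd i x))) = xor (d x) (d (fl n x))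
      have h1 : d (fl n (sgf typ wd i x)) = d (sgf typ wd i (fl n x)) := by
        refine hag _ _ (fun k hk => ?_) ?_
        · rw [fl_lt _ _ k hk]
          exact sgf_same typ wd i x (fl n x) k
            (fun j hj => (fl_lt n x j (hj.trans hk)).symm) (fl_lt n x k hk).symm
        · rw [fl_self]
          exact (sgf_diff typ wd i x (fl n x) n (fun j hj => (fl_lt n x j hj).symm)
            (fl_self n x)).symm
      rw [h1, hinv, hinv]
    have hc := ih _ hdep hinv2
    by_cases hz : ∀ x, d (fl n x) = d x
    · refine ih d (fun x y h => ?_) hinv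
      by_cases h2 : x n = y n
      · exact hag x y h h2
      · rw [hag2 x y h h2, hz]
    · exfalso
      push Not at hz
      obtain ⟨x0, hx0⟩ := hz
      have hfl : ∀ x, d (fl n x) = !(d x) := by
        intro x
        have h1 : xor (d x) (d (fl n x)) = xor (d x0) (d (fl n x0)) := hc x x0
        revert hx0 h1
        cases d x <;> cases d (fl n x) <;> cases d x0 <;> cases d (fl n x0) <;> simp
      let e : Q → Bool := fun x => xor (d x) (x n)
      have he : Dep n e := by
        intro x y h
        show xor (d x) (x n) = xor (d y) (y n)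
        by_cases h2 : x n = y n
        · rw [hag x y h h2, h2]
        · rw [hag2 x y h h2, hfl]
          revert h2
          cases x n <;> cases y n <;> cases d x <;> simp
      let i := typ n
      have hes : ∀ x, e (sgf typ wd i x) = xor (e x) (decide (∀ k < n, x k = wd n k)) := by
        intro x
        show xor (d (sgf typ wd i x)) (sgf typ wd i x n) = _
        rw [hinv]
        show xor (d x) (sgf typ wd i x n) = xor (xor (d x) (x n)) _
        unfold sgf
        by_cases h2 : ∀ k < n, x k = wd n k
        · rw [if_pos ⟨rfl, h2⟩, decide_eq_true h2]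
          cases d x <;> cases x n <;> rfl
        · rw [if_neg fun h3 => h2 h3.2, decide_eq_false h2]
          cases d x <;> cases x n <;> rfl
      let ext : (Fin n → Bool) → Q := fun w k => if h : k < n then w ⟨k, h⟩ else false
      let P : (Fin n → Bool) → (Fin n → Bool) := fun w j => sgf typ wd i (ext w) j
      have hext : ∀ (w : Fin n → Bool) (k : ℕ) (hk : k < n), ext w k = w ⟨k, hk⟩ :=
        fun w k hk => dif_pos hk
      have hP : Function.Injective P := by
        intro w w' hw
        have h1 : ∀ k (hk : k < n), w ⟨k, hk⟩ = w' ⟨k, hk⟩ := by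
          intro k
          induction k using Nat.strong_induction_on with
          | _ k ihk =>
            intro hk
            by_contra hne
            have h2 : ∀ j < k, ext w j = ext w' j := fun j hj => by
              rw [hext w j (hj.trans hk), hext w' j (hj.trans hk)]
              exact ihk j hj (hj.trans hk)
            have h3 : ext w' k = !(ext w k) := by
              rw [hext w k hk, hext w' k hk]
              revert hne
              cases w ⟨k, hk⟩ <;> cases w' ⟨k, hk⟩ <;> simp
            have h4 := sgf_diff typ wd i (ext w) (ext w') k h2 h3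
            have h5 : sgf typ wd i (ext w) k = sgf typ wd i (ext w') k := congrFun hw ⟨k, hk⟩
            rw [← h5] at h4
            revert h4
            cases sgf typ wd i (ext w) k <;> simp
        funext j
        exact h1 j.1 j.2
      have hPb : Function.Bijective P := Finite.injective_iff_bijective.1 hP
      have hs : ∑ w, b2 (e (ext (P w))) = ∑ w, b2 (e (ext w)) :=
        hPb.sum_comp fun w => b2 (e (ext w))
      have h6 : ∀ w, b2 (e (ext (P w))) =
          b2 (e (ext w)) + b2 (decide (∀ k < n, ext w k = wd n k)) := by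
        intro w
        rw [← b2_xor, ← hes]
        congr 1
        exact he _ _ fun k hk => hext (P w) k hk
      rw [Finset.sum_congr rfl fun w _ => h6 w, Finset.sum_add_distrib] at hs
      have h7 : ∑ w : Fin n → Bool, b2 (decide (∀ k < n, ext w k = wd n k)) = 0 := by
        have := add_left_cancel (hs.trans (add_zero _).symm)
        exact this
      rw [Finset.sum_eq_single (fun j : Fin n => wd n j)] at h7
      · have h10 : ∀ k < n, ext (fun j : Fin n => wd n j) k = wd n k :=
          fun k hk => hext (fun j : Fin n => wd n j) k hk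
        rw [decide_eq_true h10] at h7
        exact absurd h7 (by decide)
      · intro w _ hw
        have h8 : ¬ ∀ k < n, ext w k = wd n k := by
          intro h9
          apply hw
          funext j
          rw [← h9 j.1 j.2, hext w j.1 j.2]
        rw [decide_eq_false h8]
        rfl
      · intro h9
        exact absurd (Finset.mem_univ _) h9

theorem t_trans : Pool.Agent.N936.TC.S_TRANS := by
  classical
  intro typ wd σ hσ D hD hinv
  obtain ⟨n, hn⟩ := clopen_dep D hD
  have h1 := const typ wd n (fun x => decide (x ∈ D)) (fun x y h => by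
      show decide (x ∈ D) = decide (y ∈ D)
      exact decide_eq_decide.2 (hn x y h)) (fun i x => by
      show decide (_ ∈ D) = decide (x ∈ D)
      rw [← hσ i x]
      exact decide_eq_decide.2 (hinv i x).symm)
  rcases D.eq_empty_or_nonempty with h2 | ⟨x, hx⟩
  · exact Or.inl h2
  · right
    rw [eq_univ_iff_forall]
    intro y
    have h3 := h1 x y
    exact (decide_eq_decide.1 h3).1 hx

end Pool.Agent.N1.TC
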